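import Pool.Agent.Lib.MP_c24d14_lc.Main

/-!
# The set `Den[a, b]` of Denjoy integrable functions is coanalytic

The space `M[a, b]` is `ℝ →ₘ[volume.restrict (Icc a b)] ℝ`, with its topology of convergence in
measure. The theorem says that this topology exists, is unique, and that the complement of
`Den[a, b]` is an analytic set for it.
-/

open Set MeasureTheory Filter Topology

namespace Pool.Agent.Results.MP_c24d14_lc.DenCoanalytic

open Pool.Agent.MP_c24d14

/-- `τ` is the topology of convergence in measure on `M[a, b]`: it is Polish, and a sequence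
converges for `τ` exactly when it converges in measure. -/
def IsMeasureTopology (a b : ℝ)
    (τ : TopologicalSpace (ℝ →ₘ[volume.restrict (Icc a b)] ℝ)) : Prop :=
  @PolishSpace _ τ ∧
    ∀ (u : ℕ → (ℝ →ₘ[volume.restrict (Icc a b)] ℝ)) (f : ℝ →ₘ[volume.restrict (Icc a b)] ℝ),
      Tendsto u atTop (@nhds _ τ f) ↔
        TendstoInMeasure (volume.restrict (Icc a b)) (fun n => ⇑(u n)) atTop f

theorem result (a b : ℝ) (_hab : a < b) :
    (∃! τ : TopologicalSpace (ℝ →ₘ[volume.restrict (Icc a b)] ℝ), IsMeasureTopology a b τ) ∧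
      ∀ τ : TopologicalSpace (ℝ →ₘ[volume.restrict (Icc a b)] ℝ), IsMeasureTopology a b τ →
        @AnalyticSet _ τ (Den a b)ᶜ := by
  obtain ⟨τ₀, hτ₀⟩ : ∃ τ₀ : TopologicalSpace (ℝ →ₘ[volume.restrict (Icc a b)] ℝ),
      τ₀ = (emet (volume.restrict (Icc a b) : Measure ℝ)).toUniformSpace.toTopologicalSpace :=
    ⟨_, rfl⟩
  have h0 : IsMeasureTopology a b τ₀ := by
    rw [hτ₀]
    refine ⟨polishSpace_emet _, fun u f => ?_⟩
    rw [← tendsto_emet_iff]
    let _ := emet (volume.restrict (Icc a b) : Measure ℝ)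
    exact tendsto_iff_edist_tendsto_0
  have hseq : ∀ τ : TopologicalSpace (ℝ →ₘ[volume.restrict (Icc a b)] ℝ),
      IsMeasureTopology a b τ → @SequentialSpace _ τ := by
    intro τ hτ
    have := hτ.1
    infer_instance
  have huniq : ∀ τ : TopologicalSpace (ℝ →ₘ[volume.restrict (Icc a b)] ℝ),
      IsMeasureTopology a b τ → τ = τ₀ := fun τ hτ =>
    topology_unique (hseq τ hτ) (hseq τ₀ h0) fun u f => (hτ.2 u f).trans (h0.2 u f).symm
  refine ⟨⟨τ₀, h0, huniq⟩, fun τ hτ => ?_⟩
  rw [huniq τ hτ, hτ₀]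
  exact analyticSet_compl_Den a b

end Pool.Agent.Results.MP_c24d14_lc.DenCoanalytic
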